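import Pool.Agent.PQ44.Params

/-! The final forms. -/

namespace Pool.Agent.PQ44

open Pool.Agent.JT hiding paste

/-- decided in polynomial time by a Turing machine (Mathlib's `TM2` model) -/
def PolyTime (L : List Bool → Prop) : Prop :=
  ∃ f : List Bool → Bool, (∀ w, f w = true ↔ L w) ∧
    Nonempty (Turing.TM2ComputableInPolyTime (id : List Bool → List Bool)
      (id : List Bool → List Bool) (fun w => [f w]))

lemma LL_poly : PolyTime LL := by
  classical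
  exact ⟨fun w => decide (LL w), fun w => by simp, LL_polyTime⟩

/-- the average case form -/
theorem circ_ncard : ∃ c : ℕ, ∀ k : ℕ, 2 ≤ k → ∃ π : List Bool, π.length ≤ 2 ^ (k ^ c) ∧
    ∀ N : ℕ, 2 ^ (k ^ c) ≤ N →
    ∀ (Y : Finset (Fin N)) (m : ℕ) (C : Circuit m)
      (f : Fin m → (Fin N → Bool) → Bool) (W : Fin m → Finset (Fin N)),
      N ≤ k * Y.card → (∀ j, (W j).card * 2 ^ (k ^ c) ≤ N) →
      (∀ j x y, (∀ i, i ∉ Y ∨ i ∈ W j → x i = y i) → f j x = f j y) →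
      (∀ x, C.eval (fun j => f j x) = true → LL (List.ofFn x)) →
      {x : Fin N → Bool | π <+: List.ofFn x ∧ LL (List.ofFn x)}.ncard ≤ 2 ^ (N / 2 ^ (k ^ c)) *
        {x : Fin N → Bool | π <+: List.ofFn x ∧ ∃ l, C.Just (fun j => f j x) C.out true l ∧
            (l.map (fun j => (W j).card)).sum ≤ k * N}.ncard →
      2 ^ (N / 2 ^ (k ^ c)) ≤ C.size := by
  classical
  obtain ⟨c, hc⟩ := circ_quant
  refine ⟨c, fun k hk => ?_⟩
  obtain ⟨π, hπ, h⟩ := hc k hk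
  refine ⟨π, hπ, fun N hN Y m C f W h1 h2 h3 h4 h5 => ?_⟩
  have key : ∀ P : (Fin N → Bool) → Prop,
      {x | P x}.ncard = (Finset.univ.filter (fun x : Fin N → Bool => P x)).card := by
    intro P
    rw [← Set.ncard_coe_finset]
    congr 1
    ext x
    simp
  rw [key, key] at h5
  exact h N hN Y m C f W h1 h2 h3 h4 (by convert h5)

/-- **Trees and size.** -/
theorem tree_size : ∃ δ x0 : ℝ, 0 < δ ∧ 1 ≤ x0 ∧ ∀ (N S : ℕ), 1 ≤ S → x0 * S ≤ N →
    ∀ C : Circuit N, C.size ≤ 2 ^ S → (∀ x, C.eval x = true ↔ LL (List.ofFn x)) →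
    ∃ x, LL (List.ofFn x) ∧ ∀ l, C.Just x C.out true l →
      N * Real.log (N / S) ^ δ ≤ l.length := by
  classical
  obtain ⟨c, hc⟩ := circ_ncard
  refine ⟨1 / (2 * (c + 1)), Real.exp (4 ^ (c + 1)), by positivity, ?_, ?_⟩
  · exact Real.one_le_exp (by positivity)
  intro N S hS hxN C hV hP
  by_contra hcon
  push Not at hcon
  have hSr : (1 : ℝ) ≤ S := by exact_mod_cast hS
  have hS0 : (0 : ℝ) < S := by linarith
  obtain ⟨x, hx⟩ : ∃ x : ℝ, x = N / S := ⟨_, rfl⟩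
  rw [← hx] at hcon
  have hxx0 : Real.exp (4 ^ (c + 1)) ≤ x := by
    rw [hx, le_div_iff₀ hS0]; exact hxN
  have hx0 : 0 < x := lt_of_lt_of_le (Real.exp_pos _) hxx0
  obtain ⟨y, hy⟩ : ∃ y : ℝ, y = Real.log x := ⟨_, rfl⟩
  rw [← hy] at hcon
  have hy4 : (4 : ℝ) ^ (c + 1) ≤ y := by
    rw [hy, Real.le_log_iff_exp_le hx0]; exact hxx0
  have h4 : (4 : ℝ) ≤ 4 ^ (c + 1) := by
    calc (4 : ℝ) = 4 ^ 1 := by norm_num
      _ ≤ 4 ^ (c + 1) := pow_le_pow_right₀ (by norm_num) (by omega)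
  have hy1 : (1 : ℝ) < y := by linarith
  have hy0 : 0 ≤ y := by linarith
  obtain ⟨z, hz⟩ : ∃ z : ℝ, z = y ^ (1 / (2 * ((c : ℝ) + 1))) := ⟨_, rfl⟩
  rw [← hz] at hcon
  have hz1 : 1 < z := by
    rw [hz]
    exact Real.one_lt_rpow hy1 (by positivity)
  obtain ⟨k, hk⟩ : ∃ k, k = ⌈z⌉₊ := ⟨_, rfl⟩
  have hkz : z ≤ k := by rw [hk]; exact Nat.le_ceil _
  have hkz' : (k : ℝ) ≤ 2 * z := by
    have := Nat.ceil_lt_add_one (show 0 ≤ z by linarith)
    rw [← hk] at this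
    linarith
  have hk2 : 2 ≤ k := by
    have h1 : (1 : ℝ) < k := by linarith
    have h2 : 1 < k := by exact_mod_cast h1
    omega
  have hk2r : (2 : ℝ) ≤ k := by exact_mod_cast hk2
  -- `k ^ (c + 1) ≤ y`
  have hzc : z ^ (c + 1) = Real.sqrt y := by
    rw [hz, ← Real.rpow_natCast, ← Real.rpow_mul hy0, Real.sqrt_eq_rpow]
    congr 1
    push_cast
    field_simp
  have hsq : (2 : ℝ) ^ (c + 1) ≤ Real.sqrt y := by
    apply Real.le_sqrt_of_sq_le
    calc ((2 : ℝ) ^ (c + 1)) ^ 2 = 4 ^ (c + 1) := by rw [← pow_mul, mul_comm, pow_mul]; norm_num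
      _ ≤ y := hy4
  have hkc : (k : ℝ) ^ (c + 1) ≤ y := by
    calc (k : ℝ) ^ (c + 1) ≤ (2 * z) ^ (c + 1) := pow_le_pow_left₀ (Nat.cast_nonneg _) hkz' _
      _ = 2 ^ (c + 1) * Real.sqrt y := by rw [mul_pow, hzc]
      _ ≤ Real.sqrt y * Real.sqrt y := mul_le_mul_of_nonneg_right hsq (Real.sqrt_nonneg _)
      _ = y := Real.mul_self_sqrt hy0
  have hkc1 : k ^ c + 1 ≤ k ^ (c + 1) := by
    have h1 : 1 ≤ k ^ c := Nat.one_le_pow _ _ (by omega)
    rw [pow_succ]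
    calc k ^ c + 1 ≤ k ^ c * 2 := by omega
      _ ≤ k ^ c * k := Nat.mul_le_mul_left _ hk2
  have hkc' : (((k ^ c + 1 : ℕ)) : ℝ) ≤ y := by
    have h1 : (((k ^ c + 1 : ℕ)) : ℝ) ≤ ((k ^ (c + 1) : ℕ) : ℝ) := by exact_mod_cast hkc1
    push_cast at h1 ⊢
    linarith
  have h2x : (2 : ℝ) ^ (k ^ c + 1) ≤ x := by
    have h1 : (2 : ℝ) ^ (k ^ c + 1) = Real.exp (Real.log 2 * ((k ^ c + 1 : ℕ) : ℝ)) := by
      rw [Real.exp_mul, Real.exp_log (by norm_num), Real.rpow_natCast]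
    rw [h1, ← Real.le_log_iff_exp_le hx0, ← hy]
    have h2 : Real.log 2 * (((k ^ c + 1 : ℕ)) : ℝ) ≤ 1 * (((k ^ c + 1 : ℕ)) : ℝ) := by
      apply mul_le_mul_of_nonneg_right _ (Nat.cast_nonneg _)
      have := Real.log_two_lt_d9
      linarith
    linarith
  have hxN' : x * S = N := by rw [hx]; field_simp
  have hNr : (2 : ℝ) ^ (k ^ c + 1) * S ≤ N := by
    rw [← hxN']; exact mul_le_mul_of_nonneg_right h2x hS0.le
  have hNn : 2 ^ (k ^ c + 1) * S ≤ N := by exact_mod_cast hNr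
  have hNS : (S + 1) * 2 ^ (k ^ c) ≤ N := by
    refine le_trans ?_ hNn
    calc (S + 1) * 2 ^ (k ^ c) ≤ (S + S) * 2 ^ (k ^ c) := Nat.mul_le_mul_right _ (by omega)
      _ = 2 ^ (k ^ c + 1) * S := by rw [pow_succ]; ring
  have hN : 2 ^ (k ^ c) ≤ N := by
    refine le_trans ?_ hNS
    exact Nat.le_mul_of_pos_left _ (by omega)
  have hSN : S + 1 ≤ N / 2 ^ (k ^ c) := by
    rw [Nat.le_div_iff_mul_le (by positivity)]
    exact hNS
  obtain ⟨π, _, hA⟩ := hc k hk2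
  have h1 := hA N hN Finset.univ N C (fun j x => x j) (fun j => {j}) (by
      rw [Finset.card_univ, Fintype.card_fin]
      exact Nat.le_mul_of_pos_left _ (by omega)) (by
      intro j
      rw [Finset.card_singleton, one_mul]
      exact hN) (by
      intro j x y hxy
      exact hxy j (Or.inr (Finset.mem_singleton_self j))) (fun x hx => (hP x).1 hx) (by
      have hsub : {x : Fin N → Bool | π <+: List.ofFn x ∧ LL (List.ofFn x)} ⊆
          {x : Fin N → Bool | π <+: List.ofFn x ∧ ∃ l, C.Just (fun j => x j) C.out true l ∧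
            (l.map (fun j => ({j} : Finset (Fin N)).card)).sum ≤ k * N} := by
        rintro x ⟨hx1, hx2⟩
        obtain ⟨l, hl, hlen⟩ := hcon x hx2
        refine ⟨hx1, l, hl, ?_⟩
        have e : (l.map (fun j => ({j} : Finset (Fin N)).card)).sum = l.length := by
          simp
        rw [e]
        have h2 : (l.length : ℝ) ≤ k * N := by
          have h3 : (N : ℝ) * z ≤ N * k := mul_le_mul_of_nonneg_left hkz (Nat.cast_nonneg _)
          linarith
        exact_mod_cast h2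
      refine (Set.ncard_le_ncard hsub (Set.toFinite _)).trans ?_
      exact Nat.le_mul_of_pos_left _ (by positivity))
  have h2 : 2 ^ (S + 1) ≤ 2 ^ S := by
    calc 2 ^ (S + 1) ≤ 2 ^ (N / 2 ^ (k ^ c)) := Nat.pow_le_pow_right (by norm_num) hSN
      _ ≤ C.size := h1
      _ ≤ 2 ^ S := hV
  have h3 : 2 ^ S < 2 ^ (S + 1) := Nat.pow_lt_pow_right (by norm_num) (by omega)
  omega

end Pool.Agent.PQ44
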