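import Pool.Agent.PQ44.Main
import Pool.Agent.LP44.Final

/-! The size bound for circuits with linear justification trees, with explicit parameters. -/

namespace Pool.Agent.PQ44

open Pool.Agent.JT hiding paste
open Pool.Agent.SemRO (mix RectFree)
open Pool.Agent.PT44 (paste Core)
open Pool.Agent.KQL.Hash (Interp)
open Pool.Agent.LP44 (wtl sum_wtl size_step num_final)

open Classical in
/-- the bound for fixed parameters -/
theorem circ_fixedq {k0 k' : ℕ} {c : ℝ} (hc : 0 < c) (hk' : 2 * (k0 : ℝ) ≤ k' * c)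
    {R n0 : ℕ} {εc : ℝ} (hR2 : 2 ≤ R) (hεc : 0 < εc)
    (hcore : ∀ n, n0 ≤ n → Core (4 * k' + 4) R εc n)
    {s t w K B D u N DI : ℕ} {E : Fin K → Fin w → Bool}
    (hs1 : (16 : ℝ) ≤ s * (εc / 2 * c)) (hs2 : (24 : ℝ) ≤ s * c) (hs4 : 1 ≤ s) (ht : t = 8 * s + 2)
    (hE : Interp E DI) (hDI : t * t ≤ DI)
    (hw : 4 * (t * t) ^ 2 * (s * (t + 1) + 3) + 1 + (t * t) ^ 2 ≤ w)
    (hwB : 24 * (w : ℝ) ≤ c * B) (hKB : K ≤ B) (hB3 : 1 ≤ B) (hD : D = DD B w K s)
    (hu : u = N / D) (hU1 : 12 * (D : ℝ) ≤ u * c) (hu1 : 2 * B + 2 ≤ u)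
    (hU4 : 2 * (t * t) ^ 2 ≤ u) (E' : ℕ → ℕ → ℕ)
    (hE' : ∀ (e : Fin K) (q : Fin w), E' e q = (E e q).toNat)
    {ε : ℝ} (hε0 : 0 < ε) (hε1 : ε ≤ 1 / (4 * D)) (hε2 : ε * R ≤ c / (8 * D))
    (hε3 : ε * (8 * R) ≤ εc * (c / (8 * D)))
    (b1 : ((n0 + R : ℕ) : ℝ) ≤ N * (c / (8 * D))) (b2 : (t : ℝ) ≤ N * (εc * (c / (8 * D))))
    (b3 : 1 ≤ N * ε)
    (Y : Finset (Fin N)) (m : ℕ) (C : Circuit m)
    (f : Fin m → (Fin N → Bool) → Bool) (W : Fin m → Finset (Fin N))
    (hY : c * N ≤ Y.card) (hWc : ∀ j, ((W j ∩ Y).card : ℝ) ≤ ε * N)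
    (hW : ∀ j x y, (∀ i, i ∉ Y ∨ i ∈ W j → x i = y i) → f j x = f j y)
    (hs : ∀ x, C.eval (fun j => f j x) = true → lang 0 B w K s E' (List.ofFn x))
    (hbig : (2 : ℝ) ^ (-(ε * N)) * ((Finset.univ.filter (fun x : Fin N → Bool =>
          lang 0 B w K s E' (List.ofFn x))).card : ℝ) ≤
        ((Finset.univ.filter (fun x : Fin N → Bool => lang 0 B w K s E' (List.ofFn x) ∧
          ∃ l, C.Just (fun j => f j x) C.out true l ∧
            (l.map (fun j => (W j ∩ Y).card)).sum ≤ k0 * N)).card : ℝ)) :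
    (2 : ℝ) ^ (ε * N) ≤ C.size := by
  have hRpos : (0 : ℝ) < R := by exact_mod_cast (show 0 < R by omega)
  have hDpos : 0 < D := by
    have : D = B * s + 2 * s * w + K + B := hD
    omega
  have hDr : (0 : ℝ) < D := by exact_mod_cast hDpos
  obtain ⟨c', hc'e⟩ : ∃ c' : ℝ, c' = c / (8 * D) := ⟨_, rfl⟩
  have hc' : 0 < c' := by rw [hc'e]; positivity
  rw [← hc'e] at hε2 hε3 b1 b2
  -- choose trees
  let P : (Fin N → Bool) → List (Fin m) → Prop := fun x l =>
    C.Just (fun j => f j x) C.out true l ∧ (l.map (fun j => (W j ∩ Y).card)).sum ≤ k0 * N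
  let lst : (Fin N → Bool) → List (Fin m) := fun x => if h : ∃ l, P x l then h.choose else []
  have hlst : ∀ x, (∃ l, P x l) → P x (lst x) := by
    intro x hx
    have e : lst x = hx.choose := dif_pos hx
    rw [e]
    exact hx.choose_spec
  obtain ⟨G, hG⟩ : ∃ G, G = Finset.univ.filter (fun x : Fin N → Bool =>
      lang 0 B w K s E' (List.ofFn x) ∧ ∃ l, P x l) := ⟨_, rfl⟩
  have hGm : ∀ x ∈ G, lang 0 B w K s E' (List.ofFn x) ∧ ∃ l, P x l := fun x hx => by
    rw [hG] at hx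
    exact (Finset.mem_filter.1 hx).2
  have hbig' : (2 : ℝ) ^ (-(1 / (4 * (D : ℝ)) * N)) * ((Finset.univ.filter (fun x : Fin N → Bool =>
          lang 0 B w K s E' (List.ofFn x))).card : ℝ) ≤ G.card := by
    refine le_trans (mul_le_mul_of_nonneg_right ?_ (Nat.cast_nonneg _)) (hbig.trans (le_of_eq ?_))
    · apply Real.rpow_le_rpow_of_exponent_le (by norm_num)
      have : ε * N ≤ 1 / (4 * D) * N := mul_le_mul_of_nonneg_right hε1 (Nat.cast_nonneg _)
      linarith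
    · rw [hG]
  obtain ⟨Y', hYY, hY'c, base, hRF, hslice⟩ := transferq (k0 := k0) (k' := k') hc hk'
    (show 0 < εc / 2 by positivity) hs1 hs2 hs4 ht hE hDI hw hwB hKB hB3 hD hu hU1 hu1 hU4 E' hE'
    Y hY G (fun x => wtl W (lst x))
    (fun y hy => (hGm y hy).1) (fun y hy => by
      rw [sum_wtl]
      exact (hlst y (hGm y hy).2).2) hbig'
  rw [← hc'e] at hY'c
  have hY1 : ((n0 + R : ℕ) : ℝ) ≤ Y'.card := by
    have : (N : ℝ) * c' ≤ Y'.card := by rw [mul_comm]; exact hY'c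
    linarith
  have hY2 : n0 + R ≤ Y'.card := by exact_mod_cast hY1
  have hstep := size_step (k := k') (R := R) (ε := εc) Y' hR2 (by omega)
    (hcore _ (by omega)) C f W (by
      intro j x y hxy
      apply hW
      rintro i (hi | hi)
      · exact hxy i (Or.inl fun h => hi (hYY h))
      · exact hxy i (Or.inr hi)) (by
      intro j
      have h1 : (W j ∩ Y').card ≤ (W j ∩ Y).card :=
        Finset.card_le_card (Finset.inter_subset_inter_left hYY)
      have h2 : ((W j ∩ Y').card : ℝ) ≤ ε * N := le_trans (by exact_mod_cast h1) (hWc j)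
      have h3 : ((W j ∩ Y').card : ℝ) * R ≤ Y'.card := by
        calc ((W j ∩ Y').card : ℝ) * R ≤ (ε * N) * R := mul_le_mul_of_nonneg_right h2 hRpos.le
          _ = (ε * R) * N := by ring
          _ ≤ c' * N := mul_le_mul_of_nonneg_right hε2 (Nat.cast_nonneg _)
          _ ≤ Y'.card := hY'c
      exact_mod_cast h3) hRF (by
      have h1 : (t : ℝ) ≤ εc * Y'.card := by
        calc (t : ℝ) ≤ N * (εc * c') := b2
          _ = εc * (c' * N) := by ring
          _ ≤ εc * Y'.card := mul_le_mul_of_nonneg_left hY'c hεc.le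
      have h2 := Real.add_one_le_exp (εc * Y'.card)
      linarith) base (fun x hx => hs _ hx) _ (by
      intro x hx
      obtain ⟨h1, h2⟩ := (Finset.mem_filter.1 hx).2
      refine ⟨lst (paste Y' base x), (hlst _ (hGm _ h1).2).1, ?_⟩
      rw [← sum_wtl]
      exact h2) hslice
  refine num_final (R := R) (a := εc / 2 * Y'.card) (by rw [mul_comm]; exact b3) ?_ (by omega) hstep
  calc 4 * R * (ε * N) = (ε * (8 * R)) * N / 2 := by ring
    _ ≤ (εc * c') * N / 2 := by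
        have := mul_le_mul_of_nonneg_right hε3 (Nat.cast_nonneg N : (0 : ℝ) ≤ N)
        linarith
    _ = εc / 2 * (c' * N) := by ring
    _ ≤ εc / 2 * Y'.card := mul_le_mul_of_nonneg_left hY'c (by positivity)

end Pool.Agent.PQ44
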