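import Pool.Agent.KQL.HashDef
import Pool.Agent.KQL.PTime
import Pool.Agent.LP44.Lang

/-! An explicit language: words with four parameters and a list of monomials, many blocks, one seed
and the hash values of all blocks; the hash functions are polynomials of low degree in parities. -/

namespace Pool.Agent.PQ44

open Pool.Agent.PolyTime
open Pool.Agent.KNL (bit run pd_imp pf_bit)
open Pool.Agent.LP44 (bt PW pf_bt pf_run)

/-- number of hash bits of a block -/
def un (o T w K s : ℕ) (y : List Bool) : ℕ := (y.length - o) / (T * s + 2 * s * w + K + T)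

/-- parity of the scalar product of block `b` with a window -/
def par (o T w K s : ℕ) (y : List Bool) (b j q : ℕ) : ℕ :=
  (∑ i ∈ Finset.range (s * un o T w K s y),
    bt o y (T * (s * un o T w K s y) + (q * (2 * (s * un o T w K s y)) + (i + j))) *
      bt o y (b * (s * un o T w K s y) + i)) % 2

/-- value of the `j`-th polynomial at the parities of block `b` -/
def val (o T w K s : ℕ) (E : ℕ → ℕ → ℕ) (y : List Bool) (b j : ℕ) : ℕ :=
  ((Finset.range K).filter (fun e =>
    bt o y (T * (s * un o T w K s y) + (w * (2 * (s * un o T w K s y)) + (j * K + e))) = 1 ∧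
    ∀ q < w, E e q = 1 → par o T w K s y b j q = 1)).card % 2

/-- all hash values are right -/
def lang (o T w K s : ℕ) (E : ℕ → ℕ → ℕ) (y : List Bool) : Prop :=
  ∀ b < T, ∀ j < un o T w K s y, val o T w K s E y b j =
    bt o y (T * (s * un o T w K s y) + (w * (2 * (s * un o T w K s y)) + un o T w K s y * K) +
      b * un o T w K s y + j)

/-- first parameter: the number of leading ones -/
def qT (y : List Bool) : ℕ := run y 0

/-- second parameter -/
def qw (y : List Bool) : ℕ := run y (qT y + 1)

/-- third parameter -/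
def qK (y : List Bool) : ℕ := run y (qT y + qw y + 2)

/-- fourth parameter -/
def qs (y : List Bool) : ℕ := run y (qT y + qw y + qK y + 3)

/-- the first position after the parameters -/
def o1 (y : List Bool) : ℕ := qT y + qw y + qK y + qs y + 4

/-- the first position after the list of monomials -/
def o2 (y : List Bool) : ℕ := o1 y + qK y * qw y

/-- the bit that tells whether the parity `q` occurs in the monomial `e` -/
def ee (y : List Bool) (e q : ℕ) : ℕ := bt (o1 y) y (e * qw y + q)

/-- the language -/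
def LL (y : List Bool) : Prop := lang (o2 y) (qT y) (qw y) (qK y) (qs y) (ee y) y

section ptime

lemma pw_T : PW qT := by
  intro α _
  exact pf_run (PF.const 0)

lemma pw_w : PW qw := by
  intro α _
  exact pf_run (PF.add pw_T (PF.const 1))

lemma pw_K : PW qK := by
  intro α _
  exact pf_run (PF.add (PF.add pw_T pw_w) (PF.const 2))

lemma pw_s : PW qs := by
  intro α _
  exact pf_run (PF.add (PF.add (PF.add pw_T pw_w) pw_K) (PF.const 3))

lemma pw_o1 : PW o1 := by
  intro α _
  exact PF.add (PF.add (PF.add (PF.add pw_T pw_w) pw_K) pw_s) (PF.const 4)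

lemma pw_o2 : PW o2 := by
  intro α _
  exact PF.add pw_o1 (PF.mul pw_K pw_w)

/-- `un` as a function of the word -/
def un' (y : List Bool) : ℕ := un (o2 y) (qT y) (qw y) (qK y) (qs y) y

lemma pw_un : PW un' := by
  intro α _
  exact (PF.len.sub pw_o2).div ((((PF.mul pw_T pw_s).add (((PF.const 2).mul pw_s).mul pw_w)).add
    pw_K).add pw_T)

lemma pw_n : PW (fun y => qs y * un' y) := by
  intro α _
  exact PF.mul pw_s pw_un

/-- `par` as a function of the word -/
def par' (y : List Bool) (b j q : ℕ) : ℕ := par (o2 y) (qT y) (qw y) (qK y) (qs y) y b j q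

lemma pf_par {α : Type} [Ctx α] {b j q : List Bool → α → ℕ} (hb : PF b) (hj : PF j) (hq : PF q) :
    PF (fun y a => par' y (b y a) (j y a) (q y a)) := by
  have h1 : PF (fun y (p : α × ℕ) =>
      bt (o2 y) y (qT y * (qs y * un' y) +
        (q y p.1 * (2 * (qs y * un' y)) + (p.2 + j y p.1))) *
      bt (o2 y) y (b y p.1 * (qs y * un' y) + p.2)) := by
    refine PF.mul (pf_bt pw_o2 ?_) (pf_bt pw_o2 ?_)
    · exact PF.add (PF.mul pw_T pw_n) (PF.add (PF.mul hq.fst
        (PF.mul (PF.const 2) pw_n)) (PF.add PF.snd hj.fst))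
    · exact PF.add (PF.mul hb.fst pw_n) PF.snd
  have h2 : PF (fun y (_ : α) => qs y * un' y) := pw_n
  exact (PF.sum h2 h1).mod (PF.const 2)

lemma pf_ee {α : Type} [Ctx α] {e q : List Bool → α → ℕ} (he : PF e) (hq : PF q) :
    PF (fun y a => ee y (e y a) (q y a)) :=
  pf_bt pw_o1 (PF.add (PF.mul he pw_w) hq)

/-- `val` as a function of the word -/
def val' (y : List Bool) (b j : ℕ) : ℕ := val (o2 y) (qT y) (qw y) (qK y) (qs y) (ee y) y b j

lemma pf_val {α : Type} [Ctx α] {b j : List Bool → α → ℕ} (hb : PF b) (hj : PF j) :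
    PF (fun y a => val' y (b y a) (j y a)) := by
  classical
  -- contexts: a, e, q
  have h2 : PD (fun (y : List Bool) (p : (α × ℕ) × ℕ) =>
      (ee y p.1.2 p.2 = 1 → par' y (b y p.1.1) (j y p.1.1) p.2 = 1)) :=
    pd_imp (PD.eq (pf_ee PF.snd.fst PF.snd) (PF.const 1))
      (PD.eq (pf_par hb.fst.fst hj.fst.fst PF.snd) (PF.const 1))
  have h1 : PD (fun (y : List Bool) (p : α × ℕ) => ∀ q < qw y,
      ee y p.2 q = 1 → par' y (b y p.1) (j y p.1) q = 1) :=
    PD.forall_lt (B := fun y _ => qw y) pw_w h2
  have h0 : PD (fun (y : List Bool) (p : α × ℕ) =>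
      bt (o2 y) y (qT y * (qs y * un' y) + (qw y * (2 * (qs y * un' y)) +
        (j y p.1 * qK y + p.2))) = 1 ∧
      ∀ q < qw y, ee y p.2 q = 1 → par' y (b y p.1) (j y p.1) q = 1) := by
    refine (PD.eq (pf_bt pw_o2 ?_) (PF.const 1)).and h1
    exact PF.add (PF.mul pw_T pw_n) (PF.add (PF.mul pw_w (PF.mul (PF.const 2) pw_n))
      (PF.add (PF.mul hj.fst pw_K) PF.snd))
  refine ((PF.count (B := fun y _ => qK y) pw_K h0).mod (PF.const 2)).congr fun y a => ?_
  unfold val' val
  congr 2

lemma pd_LL : PD (fun y (_ : Unit) => LL y) := by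
  have h1 : PD (fun (y : List Bool) (p : (Unit × ℕ) × ℕ) => val' y p.1.2 p.2 =
      bt (o2 y) y (qT y * (qs y * un' y) + (qw y * (2 * (qs y * un' y)) + un' y * qK y) +
        p.1.2 * un' y + p.2)) := by
    refine PD.eq (pf_val PF.snd.fst PF.snd) (pf_bt pw_o2 ?_)
    exact PF.add (PF.add (PF.add (PF.mul pw_T pw_n) (PF.add (PF.mul pw_w
      (PF.mul (PF.const 2) pw_n)) (PF.mul pw_un pw_K))) (PF.mul PF.snd.fst pw_un)) PF.snd
  exact PD.forall_lt (B := fun y _ => qT y) pw_T (PD.forall_lt (B := fun y _ => un' y) pw_un h1)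

open Classical in
theorem LL_polyTime : Nonempty (Turing.TM2ComputableInPolyTime
    (id : List Bool → List Bool) (id : List Bool → List Bool)
    (fun w => [decide (LL w)])) := by
  apply PFBits.polyTime
  refine ⟨fun _ => 1, fun w _ => if LL w then 1 else 0, PF.const 1, ?_, ?_⟩
  · exact PF.ite (P := fun w (_ : Unit × ℕ) => LL w)
      (PD.congr (PD.fst (α := Unit) pd_LL) (fun _ _ => Iff.rfl))
      (PF.const 1) (PF.const 0)
  · intro w
    by_cases h : LL w <;> simp [h]

end ptime

end Pool.Agent.PQ44
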