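import Pool.Agent.PQ44.Lang
import Pool.Agent.PQ44.Hash
import Pool.Agent.LP44.Sem

/-! The language in terms of blocks, seed and hash values; few seeds are bad. -/

namespace Pool.Agent.PQ44

open Pool.Agent.JT (ofFn_getD)
open Pool.Agent.SemRO (mix RectFree)
open Pool.Agent.KNL.Hash (idx)
open Pool.Agent.KQL (pv)
open Pool.Agent.KQL.Hash (Seed Interp)
open Pool.Agent.LP44 (get get_of_lt pr Dims sa bx sh Right Bad bt)

/-- length of a seed -/
def ml (w K s u : ℕ) : ℕ := w * (2 * (s * u)) + u * K

/-- the hash function -/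
def HK {w K : ℕ} (E : Fin K → Fin w → Bool) (s u : ℕ) (c : Fin (ml w K s u) → Bool)
    (x : Fin (s * u) → Bool) : Fin u → Bool := fun j =>
  pv E (fun e => get c (w * (2 * (s * u)) + (j * K + e))) (fun l => decide (pr c x j l = 1))

/-- the seed in the form of `KQL.Hash` -/
def dec (w K s u : ℕ) (c : Fin (ml w K s u) → Bool) : Seed (s * u) w u K :=
  (fun l i => get c (l * (2 * (s * u)) + i),
    fun j e => get c (w * (2 * (s * u)) + (j * K + e)))

lemma dec_inj (w K s u : ℕ) : Function.Injective (dec w K s u) := by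
  intro c c' h
  have h1 := congrArg Prod.fst h
  have h2 := congrArg Prod.snd h
  funext ⟨i, hi⟩
  rw [← get_of_lt c i hi, ← get_of_lt c' i hi]
  by_cases hlt : i < w * (2 * (s * u))
  · have hpos : 0 < 2 * (s * u) := by
      rcases Nat.eq_zero_or_pos (2 * (s * u)) with h0 | h0
      · rw [h0] at hlt; simp at hlt
      · exact h0
    have hl : i / (2 * (s * u)) < w := (Nat.div_lt_iff_lt_mul hpos).2 hlt
    have := congrFun (congrFun h1 ⟨i / (2 * (s * u)), hl⟩) ⟨i % (2 * (s * u)), Nat.mod_lt _ hpos⟩
    simp only [dec] at this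
    rw [mul_comm, Nat.div_add_mod] at this
    exact this
  · have hlt' : i - w * (2 * (s * u)) < u * K := by
      unfold ml at hi
      omega
    have hpos : 0 < K := by
      rcases Nat.eq_zero_or_pos K with h0 | h0
      · rw [h0] at hlt'; simp at hlt'
      · exact h0
    have hj : (i - w * (2 * (s * u))) / K < u := (Nat.div_lt_iff_lt_mul hpos).2 hlt'
    have := congrFun (congrFun h2 ⟨(i - w * (2 * (s * u))) / K, hj⟩)
      ⟨(i - w * (2 * (s * u))) % K, Nat.mod_lt _ hpos⟩
    simp only [dec] at this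
    have e : w * (2 * (s * u)) + ((i - w * (2 * (s * u))) / K * K +
        (i - w * (2 * (s * u))) % K) = i := by
      rw [mul_comm _ K, Nat.div_add_mod]
      omega
    rwa [e] at this

lemma HK_eq {w K : ℕ} (E : Fin K → Fin w → Bool) (s u : ℕ) (hm : u ≤ s * u)
    (c : Fin (ml w K s u) → Bool) (x : Fin (s * u) → Bool) (j : Fin u) :
    HK E s u c x j = pv E ((dec w K s u c).2 j) (idx hm (dec w K s u c).1 x j) := by
  unfold HK dec idx
  simp only
  congr 1
  funext l
  unfold pr
  congr 3
  refine Finset.sum_congr rfl fun i _ => ?_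
  have h : ∀ a b : Bool, a.toNat * b.toNat = if (a && b) = true then 1 else 0 := by decide
  exact h _ _

open Classical in
/-- few seeds are bad -/
theorem card_bad_HK {w K D : ℕ} {E : Fin K → Fin w → Bool} (hE : Interp E D) (s u t : ℕ)
    (hs : 1 ≤ s) (ht : t = 8 * s + 2) (hD : t * t ≤ D)
    (hu : 2 * (t * t) ^ 2 ≤ u)
    (hw : 4 * (t * t) ^ 2 * (s * (t + 1) + 3) + 1 + (t * t) ^ 2 ≤ w) :
    (Finset.univ.filter (fun a : Fin (ml w K s u) → Bool => Bad (HK E s u) t a)).card *
      2 ^ (2 * u) ≤ 2 ^ ml w K s u := by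
  have hm : u ≤ s * u := Nat.le_mul_of_pos_left _ hs
  have h1 := card_bad_seed' hE s u hs t ht hD hu hw hm
  have h2 : (Finset.univ.filter (fun a : Fin (ml w K s u) → Bool => Bad (HK E s u) t a)).card ≤
      (Finset.univ.filter (fun c : Seed (s * u) w u K => BadS E hm t c)).card := by
    apply Finset.card_le_card_of_injOn (dec w K s u)
    · intro c hc
      obtain ⟨σ, hσ⟩ := (Finset.mem_filter.1 hc).2
      refine Finset.mem_coe.2 (Finset.mem_filter.2 ⟨Finset.mem_univ _, σ, ?_⟩)
      have e : {x : Fin (s * u) → Bool | HK E s u c x = σ} =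
          {x : Fin (s * u) → Bool | ∀ j, pv E ((dec w K s u c).2 j)
            (idx hm (dec w K s u c).1 x j) = σ j} := by
        ext x
        simp only [Set.mem_ofPred_eq, funext_iff, HK_eq E s u hm]
      rwa [e] at hσ
    · intro c _ c' _ h
      exact dec_inj w K s u h
  refine (Nat.mul_le_mul_right _ h2).trans (h1.trans ?_)
  rw [← pow_add]
  apply Nat.pow_le_pow_right (by norm_num)
  unfold ml
  apply le_of_eq
  ring

/-- size of one unit -/
def DD (T w K s : ℕ) : ℕ := T * s + 2 * s * w + K + T

lemma dims_of_div {N T w K s u : ℕ} (hu : N / DD T w K s = u) :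
    Dims N T (s * u) (ml w K s u) u := by
  constructor
  have h1 : u * DD T w K s ≤ N := by
    rw [← hu]; exact Nat.div_mul_le_self _ _
  have h2 : u * DD T w K s = T * (s * u) + ml w K s u + T * u := by
    unfold DD ml
    ring
  omega

theorem lang_iff {N T w K s u : ℕ} (hu : N / DD T w K s = u) (E : Fin K → Fin w → Bool)
    (E' : ℕ → ℕ → ℕ) (hE' : ∀ (e : Fin K) (q : Fin w), E' e q = (E e q).toNat)
    (h : Dims N T (s * u) (ml w K s u) u) (y : Fin N → Bool) :
    lang 0 T w K s E' (List.ofFn y) ↔ Right (HK E s u) h y := by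
  have hun : un 0 T w K s (List.ofFn y) = u := by
    unfold un
    rw [List.length_ofFn, Nat.sub_zero]
    exact hu
  have hbt : ∀ i (hi : i < N), bt 0 (List.ofFn y) i = (y ⟨i, hi⟩).toNat := by
    intro i hi
    unfold bt
    rw [zero_add, ofFn_getD y _ hi]
  have hle := h.le
  have hseed : ∀ i, i < ml w K s u → bt 0 (List.ofFn y) (T * (s * u) + i) =
      (get (sa h y) i).toNat := by
    intro i hi
    rw [hbt _ (by omega), get_of_lt _ _ hi]
    rfl
  have hpar : ∀ (b : Fin T) (j : Fin u) (l : ℕ), l < w →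
      par 0 T w K s (List.ofFn y) b j l = pr (sa h y) (bx h y b) j l := by
    intro b j l hl
    unfold par pr
    rw [hun, Finset.sum_range]
    congr 1
    refine Finset.sum_congr rfl fun i _ => ?_
    have hi := i.2
    have hj := j.2
    have hsu : u ≤ s * u := by
      rcases Nat.eq_zero_or_pos s with h0 | h0
      · have : s * u = 0 := by rw [h0, Nat.zero_mul]
        omega
      · exact Nat.le_mul_of_pos_left _ h0
    have h1 : l * (2 * (s * u)) + (i + j) < ml w K s u := by
      unfold ml
      have : (l + 1) * (2 * (s * u)) ≤ w * (2 * (s * u)) := Nat.mul_le_mul_right _ hl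
      have e : (l + 1) * (2 * (s * u)) = l * (2 * (s * u)) + 2 * (s * u) := by ring
      omega
    rw [hseed _ h1, hbt _ (h.bx b i)]
    rfl
  have hjT : ∀ (j : Fin u) (e : ℕ), e < K →
      w * (2 * (s * u)) + (j * K + e) < ml w K s u := by
    intro j e he
    unfold ml
    have : ((j : ℕ) + 1) * K ≤ u * K := Nat.mul_le_mul_right _ j.2
    have e : ((j : ℕ) + 1) * K = j * K + K := by ring
    omega
  have t1 : ∀ a : Bool, a.toNat = 1 ↔ a = true := by decide
  have key : ∀ (b : Fin T) (j : Fin u),
      val 0 T w K s E' (List.ofFn y) b j = (HK E s u (sa h y) (bx h y b) j).toNat := by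
    intro b j
    have h1 : ((Finset.range K).filter (fun e =>
        bt 0 (List.ofFn y) (T * (s * u) + (w * (2 * (s * u)) + (j * K + e))) = 1 ∧
        ∀ q < w, E' e q = 1 → par 0 T w K s (List.ofFn y) b j q = 1)).card =
        (Finset.univ.filter fun e : Fin K =>
          get (sa h y) (w * (2 * (s * u)) + (j * K + e)) = true ∧
          ∀ q, E e q = true → decide (pr (sa h y) (bx h y b) j q = 1) = true).card := by
      symm
      refine Finset.card_bij (fun e _ => (e : ℕ)) ?_ ?_ ?_
      · intro e he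
        obtain ⟨_, he1, he2⟩ := Finset.mem_filter.mp he
        rw [Finset.mem_filter, Finset.mem_range]
        refine ⟨e.isLt, ?_, fun q hq hEq => ?_⟩
        · rw [hseed _ (hjT j e e.isLt), t1]
          exact he1
        · rw [hpar b j q hq]
          rw [hE' e ⟨q, hq⟩, t1] at hEq
          exact of_decide_eq_true (he2 ⟨q, hq⟩ hEq)
      · intro e _ e' _ h
        exact Fin.ext h
      · intro e he
        obtain ⟨h0, he1, he2⟩ := Finset.mem_filter.mp he
        have heK : e < K := Finset.mem_range.mp h0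
        refine ⟨⟨e, heK⟩, ?_, rfl⟩
        rw [Finset.mem_filter]
        refine ⟨Finset.mem_univ _, ?_, fun q hq => ?_⟩
        · rw [hseed _ (hjT j e heK), t1] at he1
          exact he1
        · rw [decide_eq_true_eq, ← hpar b j q q.isLt]
          apply he2 q q.isLt
          rw [hE' ⟨e, heK⟩ q, t1]
          exact hq
    unfold val HK pv
    rw [hun, h1]
    rcases Nat.mod_two_eq_zero_or_one (Finset.univ.filter fun e : Fin K =>
          get (sa h y) (w * (2 * (s * u)) + (j * K + e)) = true ∧
          ∀ q, E e q = true → decide (pr (sa h y) (bx h y b) j q = 1) = true).card with h2 | h2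
    · rw [h2]; rfl
    · rw [h2]; rfl
  have hsh : ∀ (b : Fin T) (j : Fin u), bt 0 (List.ofFn y)
      (T * (s * u) + (w * (2 * (s * u)) + u * K) + b * u + j) = (sh h y b j).toNat := by
    intro b j
    exact hbt _ (h.sh b j)
  have h3 : ∀ a c : Bool, a.toNat = c.toNat ↔ c = a := by decide
  unfold lang
  rw [hun]
  constructor
  · intro H b
    funext j
    have := H b b.2 j j.2
    rw [key b j, hsh b j] at this
    exact (h3 _ _).1 this
  · intro H b hb j hj
    rw [key ⟨b, hb⟩ ⟨j, hj⟩, hsh ⟨b, hb⟩ ⟨j, hj⟩]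
    exact (h3 _ _).2 (congrFun (H ⟨b, hb⟩) ⟨j, hj⟩)

end Pool.Agent.PQ44
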