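import Pool.Agent.PQ44.Step
import Pool.Agent.KQL.Poly
import Pool.Agent.KQ.Quant
import Pool.Agent.KQ.Growth

/-! The choice of the parameters. -/

namespace Pool.Agent.PQ44

open Pool.Agent.JT hiding paste
open Pool.Agent.PT44 (Core)
open Pool.Agent.KQL.Hash (Interp)
open Pool.Agent.KQL (exists_monomials)
open Pool.Agent.KQ

open Classical in
/-- **The quantitative lower bound.** -/
theorem circ_quant : ∃ c : ℕ, ∀ k : ℕ, 2 ≤ k → ∃ π : List Bool, π.length ≤ 2 ^ (k ^ c) ∧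
    ∀ N : ℕ, 2 ^ (k ^ c) ≤ N →
    ∀ (Y : Finset (Fin N)) (m : ℕ) (C : Circuit m)
      (f : Fin m → (Fin N → Bool) → Bool) (W : Fin m → Finset (Fin N)),
      N ≤ k * Y.card → (∀ j, (W j).card * 2 ^ (k ^ c) ≤ N) →
      (∀ j x y, (∀ i, i ∉ Y ∨ i ∈ W j → x i = y i) → f j x = f j y) →
      (∀ x, C.eval (fun j => f j x) = true → LL (List.ofFn x)) →
      (Finset.univ.filter (fun x : Fin N → Bool =>
          π <+: List.ofFn x ∧ LL (List.ofFn x))).card ≤ 2 ^ (N / 2 ^ (k ^ c)) *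
        (Finset.univ.filter (fun x : Fin N → Bool => π <+: List.ofFn x ∧
          ∃ l, C.Just (fun j => f j x) C.out true l ∧
            (l.map (fun j => (W j).card)).sum ≤ k * N)).card →
      2 ^ (N / 2 ^ (k ^ c)) ≤ C.size := by
  obtain ⟨c1, hc1⟩ := core_quant
  obtain ⟨v, hv⟩ : ∃ v : ℕ → ℕ, ∀ k, v k = (32 * k ^ 2 + 4) ^ c1 := ⟨_, fun _ => rfl⟩
  obtain ⟨B, hB⟩ : ∃ B : ℕ → ℕ, ∀ k, B k = 2 ^ v k := ⟨_, fun _ => rfl⟩
  obtain ⟨s, hs⟩ : ∃ s : ℕ → ℕ, ∀ k, s k = 64 * B k * k + 48 * k := ⟨_, fun _ => rfl⟩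
  obtain ⟨t, ht⟩ : ∃ t : ℕ → ℕ, ∀ k, t k = 8 * s k + 2 := ⟨_, fun _ => rfl⟩
  obtain ⟨w, hw⟩ : ∃ w : ℕ → ℕ, ∀ k, w k =
    4 * (t k * t k) ^ 2 * (s k * (t k + 1) + 3) + 1 + (t k * t k) ^ 2 := ⟨_, fun _ => rfl⟩
  obtain ⟨d, hd⟩ : ∃ d : ℕ → ℕ, ∀ k, d k = 22 + 2 * v k + 2 * k := ⟨_, fun _ => rfl⟩
  obtain ⟨K, hK⟩ : ∃ K : ℕ → ℕ, ∀ k, K k = (w k + 1) ^ d k := ⟨_, fun _ => rfl⟩
  obtain ⟨T, hT⟩ : ∃ T : ℕ → ℕ, ∀ k, T k = 48 * k * w k * K k := ⟨_, fun _ => rfl⟩
  obtain ⟨D, hD⟩ : ∃ D : ℕ → ℕ, ∀ k, D k = T k * s k + 2 * s k * w k + K k + T k :=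
    ⟨_, fun _ => rfl⟩
  obtain ⟨U, hU⟩ : ∃ U : ℕ → ℕ, ∀ k, U k = 24 * k * D k + 2 * T k + 2 + 2 * (t k * t k) ^ 2 :=
    ⟨_, fun _ => rfl⟩
  obtain ⟨P, hP⟩ : ∃ P : ℕ → ℕ, ∀ k, P k = T k + w k + K k + s k + 4 + K k * w k :=
    ⟨_, fun _ => rfl⟩
  obtain ⟨Z, hZ⟩ : ∃ Z : ℕ → ℕ, ∀ k, Z k = 128 * k * D k * B k ^ 2 := ⟨_, fun _ => rfl⟩
  obtain ⟨G, hG⟩ : ∃ G : ℕ → ℕ, ∀ k, G k = P k + 2 * k * P k + D k * U k + 32 * k * D k * B k +
    16 * k * D k * B k * t k + Z k := ⟨_, fun _ => rfl⟩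
  -- growth
  have nn : ∀ (g : ℕ → ℕ), ∀ k, 2 ≤ k → (0 : ℝ) ≤ (g k : ℝ) := fun g k _ => Nat.cast_nonneg _
  have hkEB : EB (fun k => (k : ℝ)) := PB.id.toEB
  have hvPB : PB (fun k => (v k : ℝ)) :=
    (((PB.const 32).mul (PB.id.pow (fun k _ => Nat.cast_nonneg k) 2)
      (fun k _ => by positivity)).add (PB.const 4)).pow (fun k _ => by positivity) c1 |>.mono
      fun k _ => by rw [hv]; push_cast; rfl
  have hBEB : EB (fun k => (B k : ℝ)) :=
    ((EB.const 2).npow (fun _ _ => by norm_num) hvPB).mono fun k _ => by rw [hB]; push_cast; rfl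
  have hsEB : EB (fun k => (s k : ℝ)) :=
    ((((EB.const 64).mul hBEB (nn B)).mul hkEB (fun k _ => Nat.cast_nonneg k)).add
      ((EB.const 48).mul hkEB (fun k _ => Nat.cast_nonneg k))).mono
      fun k _ => by rw [hs]; push_cast; rfl
  have htEB : EB (fun k => (t k : ℝ)) :=
    (((EB.const 8).mul hsEB (nn s)).add (EB.const 2)).mono fun k _ => by rw [ht]; push_cast; rfl
  have ht2EB : EB (fun k => (t k : ℝ) * t k) := htEB.mul htEB (nn t)
  have ht4EB : EB (fun k => ((t k : ℝ) * t k) ^ 2) :=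
    (ht2EB.mul ht2EB (fun k _ => by positivity)).mono fun k _ => by rw [pow_two]
  have hwEB : EB (fun k => (w k : ℝ)) := by
    have h1 : EB (fun k => (s k : ℝ) * (t k + 1) + 3) :=
      (hsEB.mul (htEB.add (EB.const 1)) (fun k _ => by positivity)).add (EB.const 3)
    exact (((((EB.const 4).mul ht4EB (fun k _ => by positivity)).mul h1
      (fun k _ => by positivity)).add (EB.const 1)).add ht4EB).mono
      fun k _ => by rw [hw]; push_cast; rfl
  have hdPB : PB (fun k => (d k : ℝ)) :=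
    (((PB.const 22).add ((PB.const 2).mul hvPB (nn v))).add
      ((PB.const 2).mul PB.id (fun k _ => Nat.cast_nonneg k))).mono
      fun k _ => by rw [hd]; push_cast; rfl
  have hKEB : EB (fun k => (K k : ℝ)) :=
    ((hwEB.add (EB.const 1)).npow (fun k _ => by
      have : (0 : ℝ) ≤ w k := Nat.cast_nonneg _
      linarith) hdPB).mono fun k _ => by rw [hK]; push_cast; rfl
  have hTEB : EB (fun k => (T k : ℝ)) :=
    ((((EB.const 48).mul hkEB (fun k _ => Nat.cast_nonneg k)).mul hwEB (nn w)).mul hKEB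
      (nn K)).mono fun k _ => by rw [hT]; push_cast; rfl
  have hDEB : EB (fun k => (D k : ℝ)) :=
    ((((hTEB.mul hsEB (nn s)).add (((EB.const 2).mul hsEB (nn s)).mul hwEB (nn w))).add
      hKEB).add hTEB).mono fun k _ => by rw [hD]; push_cast; rfl
  have hUEB : EB (fun k => (U k : ℝ)) :=
    ((((((EB.const 24).mul hkEB (fun k _ => Nat.cast_nonneg k)).mul hDEB (nn D)).add
      ((EB.const 2).mul hTEB (nn T))).add (EB.const 2)).add
      ((EB.const 2).mul ht4EB (fun k _ => by positivity))).mono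
      fun k _ => by rw [hU]; push_cast; rfl
  have hPEB : EB (fun k => (P k : ℝ)) :=
    (((((hTEB.add hwEB).add hKEB).add hsEB).add (EB.const 4)).add (hKEB.mul hwEB (nn w))).mono
      fun k _ => by rw [hP]; push_cast; rfl
  have hkDEB : ∀ r : ℝ, EB (fun k => r * (k : ℝ) * D k) := fun r =>
    ((EB.const r).mul hkEB (fun k _ => Nat.cast_nonneg k)).mul hDEB (nn D)
  have hZEB : EB (fun k => (Z k : ℝ)) :=
    ((hkDEB 128).mul (hBEB.mul hBEB (nn B)) (fun k _ => by positivity)).mono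
      fun k _ => by rw [hZ, pow_two]; push_cast; rfl
  have hGEB : EB (fun k => (G k : ℝ)) := by
    have h1 : EB (fun k => 2 * (k : ℝ) * P k) :=
      ((EB.const 2).mul hkEB (fun k _ => Nat.cast_nonneg k)).mul hPEB (nn P)
    have h2 : EB (fun k => (D k : ℝ) * U k) := hDEB.mul hUEB (nn U)
    have h3 : EB (fun k => 32 * (k : ℝ) * D k * B k) := (hkDEB 32).mul hBEB (nn B)
    have h4 : EB (fun k => 16 * (k : ℝ) * D k * B k * t k) :=
      ((hkDEB 16).mul hBEB (nn B)).mul htEB (nn t)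
    exact (((((hPEB.add h1).add h2).add h3).add h4).add hZEB).mono
      fun k _ => by rw [hG]; push_cast; rfl
  obtain ⟨a1, ha1⟩ := hGEB
  obtain ⟨a2, ha2⟩ := (EB.const 2).mul hZEB (nn Z)
  refine ⟨max a1 a2, fun k hk => ?_⟩
  obtain ⟨a, ha⟩ : ∃ a, a = max a1 a2 := ⟨_, rfl⟩
  have hGa : G k ≤ 2 ^ (k ^ a) := by
    have h := (ha1 k hk).trans (kpow_mono' hk (le_max_left a1 a2))
    simp only at h
    rw [ha]
    exact_mod_cast h
  have hZa : 2 * Z k ≤ 2 ^ (k ^ a) := by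
    have h := (ha2 k hk).trans (kpow_mono' hk (le_max_right a1 a2))
    simp only at h
    rw [ha]
    exact_mod_cast h
  rw [← ha]
  -- positivity
  have hkpos : 1 ≤ k := by omega
  have hBpos : 1 ≤ B k := by rw [hB]; exact Nat.one_le_two_pow
  have hspos : 1 ≤ s k := by rw [hs]; omega
  have hwpos : 1 ≤ w k := by rw [hw]; omega
  have hKpos : 1 ≤ K k := by rw [hK]; exact Nat.one_le_pow _ _ (by omega)
  have hTpos : 1 ≤ T k := by
    rw [hT]
    have : 0 < 48 * k * w k * K k := by positivity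
    exact this
  have hDpos : 1 ≤ D k := by
    have := hD k
    omega
  have hZpos : 1 ≤ Z k := by
    rw [hZ]
    have : 0 < 128 * k * D k * B k ^ 2 := by positivity
    exact this
  -- the monomials
  obtain ⟨E, hE⟩ : ∃ E : Fin (K k) → Fin (w k) → Bool, Interp E (2 ^ d k) := by
    rw [hK k]
    obtain ⟨E, hE⟩ := exists_monomials (w k) (d k)
    exact ⟨E, fun ι _ _ v hv hc => hE ι v hv hc⟩
  have hPlen : (pre (T k) (s k) E).length = P k := by rw [pre_length, hP]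
  have hGk := hG k
  refine ⟨pre (T k) (s k) E, by omega, fun N hN => ?_⟩
  obtain ⟨π, hπ⟩ : ∃ π, π = pre (T k) (s k) E := ⟨_, rfl⟩
  rw [← hπ] at hPlen ⊢
  obtain ⟨M, rfl⟩ : ∃ M, N = π.length + M := ⟨N - π.length, by omega⟩
  have hM : 2 * k * P k + D k * U k + 32 * k * D k * B k + 16 * k * D k * B k * t k + Z k ≤ M := by
    omega
  -- real numbers
  have hkr : (2 : ℝ) ≤ k := by exact_mod_cast hk
  have hk0 : (0 : ℝ) < k := by linarith
  have hBr : (1 : ℝ) ≤ B k := by exact_mod_cast hBpos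
  have hB0 : (0 : ℝ) < B k := by linarith
  have hDr : (1 : ℝ) ≤ D k := by exact_mod_cast hDpos
  have hD0 : (0 : ℝ) < D k := by linarith
  have hZr : (1 : ℝ) ≤ Z k := by exact_mod_cast hZpos
  have hZ0 : (0 : ℝ) < Z k := by linarith
  have hZe : (Z k : ℝ) = 128 * k * D k * B k ^ 2 := by rw [hZ]; push_cast; rfl
  -- the core theorem
  obtain ⟨R, hR2, hRB, hcore⟩ := hc1 (4 * (8 * k ^ 2) + 4) (by omega)
  have ev : (4 * (8 * k ^ 2) + 4) ^ c1 = v k := by rw [hv]; congr 1; ring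
  rw [ev, ← hB] at hRB
  have hRr : (R : ℝ) ≤ B k := by exact_mod_cast hRB
  have hcore' : ∀ n : ℕ, B k ≤ n → Core (4 * (8 * k ^ 2) + 4) R (1 / (B k : ℝ)) n := by
    intro n hn
    have h1 := hcore n (by rw [ev, ← hB]; exact hn)
    rw [ev] at h1
    have e2 : ((B k : ℕ) : ℝ) = 2 ^ v k := by rw [hB]; push_cast; rfl
    rw [e2]
    exact h1
  refine prefix_step (k := k) (M := M) (Z := Z k) (Q := 2 ^ (k ^ a)) hkpos π LL
    (lang 0 (T k) (w k) (K k) (s k) (nE E)) (fun v => by rw [hπ]; exact LL_pre _ _ E v) hZpos hZa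
    (by rw [hPlen]; omega) ?_
  intro Y m C f W hY hWc hW hs' hbig
  have hkD0 : (0 : ℝ) < k * D k := by positivity
  have ec : 1 / (2 * (k : ℝ)) / (8 * D k) = 1 / (16 * k * D k) := by field_simp; ring
  have hMr : (0 : ℝ) ≤ M := Nat.cast_nonneg _
  refine circ_fixedq (k0 := 2 * k) (k' := 8 * k ^ 2) (c := 1 / (2 * (k : ℝ))) (R := R)
    (n0 := B k) (εc := 1 / (B k : ℝ)) (s := s k) (t := t k) (w := w k) (K := K k) (B := T k)
    (D := D k) (u := M / D k) (DI := 2 ^ d k) (E := E) (ε := 1 / (Z k : ℝ))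
    (by positivity) ?_ hR2 (by positivity) hcore' ?_ ?_ hspos (ht k) hE ?_ (hw k).ge ?_ ?_ hTpos
    (hD k) rfl ?_ ?_ ?_ (nE E) (nE_eq E) (by positivity) ?_ ?_ ?_ ?_ ?_ ?_ Y m C f W hY hWc hW hs' hbig
  · -- reads
    push_cast
    apply le_of_eq
    field_simp
    ring
  · -- hs1
    have e : (s k : ℝ) = 64 * B k * k + 48 * k := by rw [hs]; push_cast; rfl
    rw [e]
    have h1 : (1 : ℝ) / B k / 2 * (1 / (2 * k)) = 1 / (4 * B k * k) := by field_simp; ring
    rw [h1, mul_one_div, le_div_iff₀ (by positivity)]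
    nlinarith [hk0]
  · -- hs2
    have e : (s k : ℝ) = 64 * B k * k + 48 * k := by rw [hs]; push_cast; rfl
    rw [e, mul_one_div, le_div_iff₀ (by positivity)]
    have : 0 ≤ 64 * (B k : ℝ) * k := by positivity
    linarith
  · -- hDI
    have h1 : k ≤ 2 ^ k := Nat.lt_two_pow_self.le
    have h2 : 1 ≤ 2 ^ v k := Nat.one_le_two_pow
    have h3 : k ≤ 2 ^ v k * k := Nat.le_mul_of_pos_left _ (by positivity)
    have h4 : t k ≤ 2 ^ 11 * (2 ^ v k * k) := by
      have e1 := ht k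
      have e2 := hs k
      rw [hB k, mul_assoc] at e2
      generalize 2 ^ v k * k = X at *
      omega
    have h5 : t k ≤ 2 ^ (11 + v k + k) := by
      refine h4.trans ?_
      rw [pow_add, pow_add, mul_assoc]
      exact Nat.mul_le_mul_left _ (Nat.mul_le_mul_left _ h1)
    calc t k * t k ≤ 2 ^ (11 + v k + k) * 2 ^ (11 + v k + k) := Nat.mul_le_mul h5 h5
      _ = 2 ^ d k := by rw [← pow_add, hd]; congr 1; ring
  · -- hwB
    rw [one_div, inv_mul_eq_div, le_div_iff₀ (by positivity)]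
    have h1 : 24 * w k * (2 * k) ≤ T k := by
      rw [hT]
      calc 24 * w k * (2 * k) = 48 * k * w k * 1 := by ring
        _ ≤ 48 * k * w k * K k := Nat.mul_le_mul_left _ hKpos
    exact_mod_cast h1
  · -- hKB
    rw [hT]
    exact Nat.le_mul_of_pos_left _ (by positivity)
  · -- hU1
    have h1 : U k ≤ M / D k := by
      rw [Nat.le_div_iff_mul_le hDpos, mul_comm]
      omega
    have h2 : 24 * k * D k ≤ M / D k := by
      have := hU k
      omega
    have h3 : 24 * (k : ℝ) * D k ≤ ((M / D k : ℕ) : ℝ) := by exact_mod_cast h2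
    rw [mul_one_div, le_div_iff₀ (by positivity)]
    linarith
  · have h1 : U k ≤ M / D k := by
      rw [Nat.le_div_iff_mul_le hDpos, mul_comm]
      omega
    have := hU k
    omega
  · have h1 : U k ≤ M / D k := by
      rw [Nat.le_div_iff_mul_le hDpos, mul_comm]
      omega
    have := hU k
    omega
  · -- hε1
    apply one_div_le_one_div_of_le (by positivity)
    rw [hZe]
    have h1 : (1 : ℝ) ≤ (B k : ℝ) ^ 2 := by nlinarith
    have h2 : (1 : ℝ) ≤ k * (B k : ℝ) ^ 2 := by nlinarith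
    nlinarith
  · -- hε2
    rw [ec, one_div_mul_eq_div, div_le_div_iff₀ hZ0 (by positivity), one_mul, hZe]
    have h1 : (R : ℝ) * (16 * k * D k) ≤ B k * (16 * k * D k) :=
      mul_le_mul_of_nonneg_right hRr (by positivity)
    have h2 : (B k : ℝ) ≤ B k ^ 2 := by nlinarith
    have h3 : B k * (16 * k * D k) ≤ (B k : ℝ) ^ 2 * (16 * k * D k) :=
      mul_le_mul_of_nonneg_right h2 (by positivity)
    have h4 : 0 ≤ (B k : ℝ) ^ 2 * (16 * k * D k) := by positivity
    have h5 : 128 * (k : ℝ) * D k * B k ^ 2 = 8 * ((B k : ℝ) ^ 2 * (16 * k * D k)) := by ring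
    linarith
  · -- hε3
    rw [ec, one_div_mul_eq_div]
    have e1 : 1 / (B k : ℝ) * (1 / (16 * k * D k)) = 1 / (16 * k * D k * B k) := by
      field_simp
    rw [e1, div_le_div_iff₀ hZ0 (by positivity), one_mul, hZe]
    calc 8 * (R : ℝ) * (16 * k * D k * B k) ≤ 8 * B k * (16 * k * D k * B k) := by
          apply mul_le_mul_of_nonneg_right _ (by positivity)
          linarith
      _ = 128 * k * D k * B k ^ 2 := by ring
  · -- b1
    rw [ec, mul_one_div, le_div_iff₀ (by positivity)]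
    have h1 : (B k + R) * (16 * k * D k) ≤ M := by
      calc (B k + R) * (16 * k * D k) ≤ (B k + B k) * (16 * k * D k) :=
            Nat.mul_le_mul_right _ (by omega)
        _ = 32 * k * D k * B k := by ring
        _ ≤ M := by omega
    exact_mod_cast h1
  · -- b2
    rw [ec]
    have e1 : 1 / (B k : ℝ) * (1 / (16 * k * D k)) = 1 / (16 * k * D k * B k) := by
      field_simp
    rw [e1, mul_one_div, le_div_iff₀ (by positivity)]
    have h1 : t k * (16 * k * D k * B k) ≤ M := by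
      calc t k * (16 * k * D k * B k) = 16 * k * D k * B k * t k := by ring
        _ ≤ M := by omega
    exact_mod_cast h1
  · -- b3
    rw [mul_one_div, le_div_iff₀ hZ0, one_mul]
    have h1 : Z k ≤ M := by omega
    exact_mod_cast h1

end Pool.Agent.PQ44
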