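import Pool.Agent.PQ44.Sem
import Pool.Agent.LP44.One

/-! The parameters and the list of monomials as a prefix of the word. -/

namespace Pool.Agent.PQ44

open Pool.Agent.KNL (bit run)
open Pool.Agent.LP44 (bt)

/-- unary code -/
def pre1 (a : ℕ) : List Bool := List.replicate a true ++ [false]

lemma pre1_length (a : ℕ) : (pre1 a).length = a + 1 := by simp [pre1]

lemma bit_right (u v : List Bool) (i : ℕ) : bit (u ++ v) (u.length + i) = bit v i := by
  unfold bit
  rw [List.getD_append_right _ _ _ _ (by omega), Nat.add_sub_cancel_left]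

lemma bit_pre1 (a : ℕ) (v : List Bool) (i : ℕ) (hi : i ≤ a) :
    bit (pre1 a ++ v) i = if i = a then 0 else 1 := by
  unfold bit pre1
  rw [List.getD_append _ _ _ _ (by simp; omega)]
  by_cases h : i < a
  · rw [List.getD_append _ _ _ _ (by simpa using h), List.getD_replicate _ h, if_neg (by omega)]
    rfl
  · have : i = a := by omega
    subst this
    rw [List.getD_append_right _ _ _ _ (by simp), List.length_replicate, Nat.sub_self, if_pos rfl]
    rfl

lemma run_pre (u v : List Bool) (a : ℕ) : run (u ++ (pre1 a ++ v)) u.length = a := by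
  apply Pool.Agent.KNL.run_unique
  · rw [List.length_append, List.length_append, pre1_length]; omega
  · intro i hi
    rw [bit_right, bit_pre1 _ _ _ (by omega), if_neg (by omega)]
  · rw [bit_right, bit_pre1 _ _ _ le_rfl, if_pos rfl]
    norm_num

/-- the table of monomials -/
def tbl {w K : ℕ} (E : Fin K → Fin w → Bool) : List Bool :=
  List.ofFn (fun i : Fin (K * w) => E i.divNat i.modNat)

lemma tbl_length {w K : ℕ} (E : Fin K → Fin w → Bool) : (tbl E).length = K * w := by simp [tbl]

lemma tbl_bit {w K : ℕ} (E : Fin K → Fin w → Bool) (e : Fin K) (q : Fin w) (v : List Bool) :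
    bit (tbl E ++ v) (e * w + q) = (E e q).toNat := by
  have hlt : (e : ℕ) * w + q < K * w := by
    calc (e : ℕ) * w + q < e * w + w := by have := q.2; omega
      _ = (e + 1) * w := by ring
      _ ≤ K * w := Nat.mul_le_mul_right _ e.2
  have hw : 0 < w := by have := q.2; omega
  unfold bit
  rw [List.getD_append _ _ _ _ (by rw [tbl_length]; exact hlt),
    List.getD_eq_getElem _ _ (by rw [tbl_length]; exact hlt)]
  unfold tbl
  rw [List.getElem_ofFn]
  congr 2
  · apply Fin.ext
    change ((e : ℕ) * w + q) / w = e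
    rw [mul_comm, Nat.mul_add_div hw, Nat.div_eq_of_lt q.2, add_zero]
  · apply Fin.ext
    change ((e : ℕ) * w + q) % w = q
    rw [mul_comm, Nat.mul_add_mod, Nat.mod_eq_of_lt q.2]

/-- the prefix which encodes the parameters and the monomials -/
def pre (T s : ℕ) {w K : ℕ} (E : Fin K → Fin w → Bool) : List Bool :=
  pre1 T ++ (pre1 w ++ (pre1 K ++ (pre1 s ++ tbl E)))

lemma pre_length (T s : ℕ) {w K : ℕ} (E : Fin K → Fin w → Bool) :
    (pre T s E).length = T + w + K + s + 4 + K * w := by
  unfold pre
  simp only [List.length_append, pre1_length, tbl_length]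
  omega

variable (T s : ℕ) {w K : ℕ} (E : Fin K → Fin w → Bool) (v : List Bool)

lemma qT_pre : qT (pre T s E ++ v) = T := by
  have h := run_pre [] (pre1 w ++ (pre1 K ++ (pre1 s ++ tbl E)) ++ v) T
  unfold qT pre
  rw [List.append_assoc]
  exact h

lemma qw_pre : qw (pre T s E ++ v) = w := by
  unfold qw
  rw [qT_pre]
  have h := run_pre (pre1 T) (pre1 K ++ (pre1 s ++ tbl E) ++ v) w
  rw [pre1_length] at h
  unfold pre
  simp only [List.append_assoc] at h ⊢
  exact h

lemma qK_pre : qK (pre T s E ++ v) = K := by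
  unfold qK
  rw [qT_pre, qw_pre]
  have h := run_pre (pre1 T ++ pre1 w) (pre1 s ++ tbl E ++ v) K
  rw [List.length_append, pre1_length, pre1_length] at h
  have e : T + 1 + (w + 1) = T + w + 2 := by omega
  rw [e] at h
  unfold pre
  simp only [List.append_assoc] at h ⊢
  exact h

lemma qs_pre : qs (pre T s E ++ v) = s := by
  unfold qs
  rw [qT_pre, qw_pre, qK_pre]
  have h := run_pre (pre1 T ++ pre1 w ++ pre1 K) (tbl E ++ v) s
  rw [List.length_append, List.length_append, pre1_length, pre1_length, pre1_length] at h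
  have e : T + 1 + (w + 1) + (K + 1) = T + w + K + 3 := by omega
  rw [e] at h
  unfold pre
  simp only [List.append_assoc] at h ⊢
  exact h

lemma o1_pre : o1 (pre T s E ++ v) = T + w + K + s + 4 := by
  unfold o1
  rw [qT_pre, qw_pre, qK_pre, qs_pre]

lemma o2_pre : o2 (pre T s E ++ v) = (pre T s E).length := by
  unfold o2
  rw [o1_pre, qw_pre, qK_pre, pre_length]

lemma ee_pre (e : Fin K) (q : Fin w) : ee (pre T s E ++ v) e q = (E e q).toNat := by
  unfold ee
  rw [o1_pre, qw_pre]
  have h := bit_right (pre1 T ++ (pre1 w ++ (pre1 K ++ pre1 s))) (tbl E ++ v) (e * w + q)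
  rw [tbl_bit] at h
  rw [← h]
  unfold bt bit pre
  simp only [List.append_assoc, List.length_append, pre1_length]
  congr 2
  omega

lemma lang_congr {o o' : ℕ} {E1 E2 : ℕ → ℕ → ℕ} {y y' : List Bool}
    (h1 : y.length - o = y'.length - o') (h2 : ∀ i, bt o y i = bt o' y' i)
    (h3 : ∀ e < K, ∀ q < w, E1 e q = E2 e q) :
    lang o T w K s E1 y ↔ lang o' T w K s E2 y' := by
  have h4 : un o T w K s y = un o' T w K s y' := by
    unfold un
    rw [h1]
  have h5 : ∀ b j q, par o T w K s y b j q = par o' T w K s y' b j q := by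
    intro b j q
    unfold par
    rw [h4]
    congr 1
    refine Finset.sum_congr rfl fun i _ => ?_
    rw [h2, h2]
  have h6 : ∀ b j, val o T w K s E1 y b j = val o' T w K s E2 y' b j := by
    intro b j
    unfold val
    rw [h4]
    congr 2
    refine Finset.filter_congr fun e he => ?_
    rw [Finset.mem_range] at he
    rw [h2]
    refine and_congr_right fun _ => forall_congr' fun q => forall_congr' fun hq => ?_
    rw [h3 e he q hq, h5]
  unfold lang
  simp only [h4, h6, h2]

/-- the monomials as numbers -/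
def nE (e q : ℕ) : ℕ := if h : e < K ∧ q < w then (E ⟨e, h.1⟩ ⟨q, h.2⟩).toNat else 0

lemma nE_eq (e : Fin K) (q : Fin w) : nE E e q = (E e q).toNat := by
  unfold nE
  rw [dif_pos ⟨e.2, q.2⟩]

lemma LL_pre : LL (pre T s E ++ v) ↔ lang 0 T w K s (nE E) v := by
  unfold LL
  rw [o2_pre, qT_pre, qw_pre, qK_pre, qs_pre]
  apply lang_congr
  · rw [List.length_append]
    omega
  · intro i
    unfold bt
    rw [List.getD_append_right _ _ _ _ (by omega), zero_add, Nat.add_sub_cancel_left]
  · intro e he q hq
    have h1 := ee_pre T s E v ⟨e, he⟩ ⟨q, hq⟩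
    have h2 := nE_eq E ⟨e, he⟩ ⟨q, hq⟩
    exact h1.trans h2.symm

end Pool.Agent.PQ44
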