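import Pool.Agent.PQ44.Circ
import Pool.Agent.PQ44.Pre

/-! From words without prefix to words with a prefix. -/

namespace Pool.Agent.PQ44

open Pool.Agent.JT hiding paste
open Pool.Agent.LP44 (app ofFn_app app_natAdd card_app)

open Classical in
theorem prefix_step {k M Z Q : ℕ} (hk : 1 ≤ k) (π : List Bool) (L : List Bool → Prop)
    (lg : List Bool → Prop) (hL : ∀ v, L (π ++ v) ↔ lg v) (hZ : 1 ≤ Z) (hQ : 2 * Z ≤ Q)
    (hM : 2 * k * π.length ≤ M)
    (main : ∀ (Y : Finset (Fin M)) (m : ℕ) (C : Circuit m)
      (f : Fin m → (Fin M → Bool) → Bool) (W : Fin m → Finset (Fin M)),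
      1 / (2 * (k : ℝ)) * M ≤ Y.card → (∀ j, ((W j ∩ Y).card : ℝ) ≤ 1 / (Z : ℝ) * M) →
      (∀ j x y, (∀ i, i ∉ Y ∨ i ∈ W j → x i = y i) → f j x = f j y) →
      (∀ x, C.eval (fun j => f j x) = true → lg (List.ofFn x)) →
      (2 : ℝ) ^ (-(1 / (Z : ℝ) * M)) * ((Finset.univ.filter (fun x : Fin M → Bool =>
          lg (List.ofFn x))).card : ℝ) ≤
        ((Finset.univ.filter (fun x : Fin M → Bool => lg (List.ofFn x) ∧
          ∃ l, C.Just (fun j => f j x) C.out true l ∧
            (l.map (fun j => (W j ∩ Y).card)).sum ≤ (2 * k) * M)).card : ℝ) →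
      (2 : ℝ) ^ (1 / (Z : ℝ) * M) ≤ C.size) :
    ∀ (Y : Finset (Fin (π.length + M))) (m : ℕ) (C : Circuit m)
      (f : Fin m → (Fin (π.length + M) → Bool) → Bool) (W : Fin m → Finset (Fin (π.length + M))),
      π.length + M ≤ k * Y.card → (∀ j, (W j).card * Q ≤ π.length + M) →
      (∀ j x y, (∀ i, i ∉ Y ∨ i ∈ W j → x i = y i) → f j x = f j y) →
      (∀ x, C.eval (fun j => f j x) = true → L (List.ofFn x)) →
      (Finset.univ.filter (fun x : Fin (π.length + M) → Bool =>
          π <+: List.ofFn x ∧ L (List.ofFn x))).card ≤ 2 ^ ((π.length + M) / Q) *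
        (Finset.univ.filter (fun x : Fin (π.length + M) → Bool => π <+: List.ofFn x ∧
          ∃ l, C.Just (fun j => f j x) C.out true l ∧
            (l.map (fun j => (W j).card)).sum ≤ k * (π.length + M))).card →
      2 ^ ((π.length + M) / Q) ≤ C.size := by
  intro Y m C f W hY hWY hW hs hbig
  have hQpos : 0 < Q := by omega
  have hkr : (1 : ℝ) ≤ k := by exact_mod_cast hk
  have hk0 : (0 : ℝ) < k := by linarith
  have hZr : (0 : ℝ) < Z := by exact_mod_cast hZ
  have hPM : π.length ≤ M := by
    have : π.length ≤ 2 * k * π.length := Nat.le_mul_of_pos_left _ (by positivity)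
    omega
  have hMr : 2 * (k : ℝ) * π.length ≤ M := by exact_mod_cast hM
  have hPr : (π.length : ℝ) ≤ M := by exact_mod_cast hPM
  have hP0 : (0 : ℝ) ≤ π.length := Nat.cast_nonneg _
  -- the exponent
  obtain ⟨e, he⟩ : ∃ e, e = (π.length + M) / Q := ⟨_, rfl⟩
  rw [← he] at hbig ⊢
  have heQ : e * Q ≤ π.length + M := by rw [he]; exact Nat.div_mul_le_self _ _
  have heZ : (e : ℝ) ≤ 1 / (Z : ℝ) * M := by
    have h1 : e * (2 * Z) ≤ 2 * M := (Nat.mul_le_mul_left _ hQ).trans (by omega)
    have h2 : e * Z ≤ M := by nlinarith
    have h3 : (e : ℝ) * Z ≤ M := by exact_mod_cast h2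
    rw [one_div, inv_mul_eq_div, le_div_iff₀ hZr]
    exact h3
  obtain ⟨Y', hY'⟩ : ∃ Y' : Finset (Fin M), Y' = Finset.univ.filter
    (fun i => Fin.natAdd π.length i ∈ Y) := ⟨_, rfl⟩
  let W' : Fin m → Finset (Fin M) := fun j => Finset.univ.filter
    (fun i => Fin.natAdd π.length i ∈ W j)
  have hWc : ∀ j, (W' j ∩ Y').card ≤ (W j).card := by
    intro j
    apply Finset.card_le_card_of_injOn (Fin.natAdd π.length)
    · intro i hi
      exact (Finset.mem_filter.1 (Finset.mem_inter.1 hi).1).2
    · intro i _ i' _ h
      exact Fin.natAdd_injective _ _ h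
  have hYc : (Y.card : ℝ) ≤ Y'.card + π.length := by
    have h1 : Y ⊆ Y'.image (Fin.natAdd π.length) ∪
        (Finset.univ : Finset (Fin π.length)).image (Fin.castAdd M) := by
      intro i hi
      induction i using Fin.addCases with
      | left i => exact Finset.mem_union_right _ (Finset.mem_image_of_mem _ (Finset.mem_univ _))
      | right i =>
        refine Finset.mem_union_left _ (Finset.mem_image_of_mem _ ?_)
        rw [hY']
        exact Finset.mem_filter.2 ⟨Finset.mem_univ _, hi⟩
    have h2 := (Finset.card_le_card h1).trans (Finset.card_union_le _ _)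
    have h3 : (Y'.image (Fin.natAdd π.length)).card ≤ Y'.card := Finset.card_image_le
    have h4 : ((Finset.univ : Finset (Fin π.length)).image (Fin.castAdd M)).card ≤ π.length := by
      refine Finset.card_image_le.trans ?_
      rw [Finset.card_univ, Fintype.card_fin]
    have h5 : Y.card ≤ Y'.card + π.length := by omega
    exact_mod_cast h5
  have hmain := main Y' m C (fun j x => f j (app π x)) W' (by
      have h1 : (π.length : ℝ) + M ≤ k * Y.card := by exact_mod_cast hY
      have h2 : (k : ℝ) * Y.card ≤ k * (Y'.card + π.length) :=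
        mul_le_mul_of_nonneg_left hYc hk0.le
      have h3 : (M : ℝ) ≤ 2 * k * Y'.card := by
        have : (k : ℝ) * (Y'.card + π.length) = k * Y'.card + k * π.length := by ring
        linarith
      rw [one_div, inv_mul_eq_div, div_le_iff₀ (by positivity)]
      linarith) (by
      intro j
      have h1 : ((W' j ∩ Y').card : ℝ) ≤ (W j).card := by exact_mod_cast hWc j
      have h2 : (W j).card * (2 * Z) ≤ 2 * M :=
        (Nat.mul_le_mul_left _ hQ).trans ((hWY j).trans (by omega))
      have h3 : (W j).card * Z ≤ M := by nlinarith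
      have h4 : ((W j).card : ℝ) * Z ≤ M := by exact_mod_cast h3
      have h5 : ((W j).card : ℝ) ≤ 1 / (Z : ℝ) * M := by
        rw [one_div, inv_mul_eq_div, le_div_iff₀ hZr]
        exact h4
      linarith) (by
      intro j x y hxy
      apply hW
      intro i hi
      induction i using Fin.addCases with
      | left i => unfold app; rw [Fin.append_left, Fin.append_left]
      | right i =>
        rw [app_natAdd, app_natAdd]
        apply hxy
        rcases hi with hi | hi
        · left
          intro hc
          rw [hY'] at hc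
          exact hi (Finset.mem_filter.1 hc).2
        · right
          exact Finset.mem_filter.2 ⟨Finset.mem_univ _, hi⟩) (by
      intro x hx
      have h1 := hs (app π x) hx
      rw [ofFn_app, hL] at h1
      exact h1) (by
      have h1 := card_app π (M := M) (fun y => L (List.ofFn y))
      have h2 := card_app π (M := M) (fun y => ∃ l, C.Just (fun j => f j y) C.out true l ∧
            (l.map (fun j => (W j).card)).sum ≤ k * (π.length + M))
      have h3 : (Finset.univ.filter (fun x : Fin M → Bool => L (List.ofFn (app π x)))) =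
          Finset.univ.filter (fun x : Fin M → Bool => lg (List.ofFn x)) := by
        apply Finset.filter_congr
        intro x _
        rw [ofFn_app, hL]
      rw [h3] at h1
      rw [h1, h2] at hbig
      have hexp : (2 : ℝ) ^ (-(1 / (Z : ℝ) * M)) ≤ 2 ^ (-(e : ℝ)) := by
        apply Real.rpow_le_rpow_of_exponent_le (by norm_num)
        linarith
      have hbig' : (2 : ℝ) ^ (-(e : ℝ)) * ((Finset.univ.filter (fun x : Fin M → Bool =>
          lg (List.ofFn x))).card : ℝ) ≤ ((Finset.univ.filter (fun x : Fin M → Bool =>
            ∃ l, C.Just (fun j => f j (app π x)) C.out true l ∧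
            (l.map (fun j => (W j).card)).sum ≤ k * (π.length + M))).card : ℝ) := by
        have h5 : ((Finset.univ.filter (fun x : Fin M → Bool =>
          lg (List.ofFn x))).card : ℝ) ≤ 2 ^ e * ((Finset.univ.filter (fun x : Fin M → Bool =>
            ∃ l, C.Just (fun j => f j (app π x)) C.out true l ∧
            (l.map (fun j => (W j).card)).sum ≤ k * (π.length + M))).card : ℝ) := by
          exact_mod_cast hbig
        rw [Real.rpow_neg (by norm_num), Real.rpow_natCast, inv_mul_le_iff₀ (by positivity)]
        exact h5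
      refine (mul_le_mul_of_nonneg_right hexp (Nat.cast_nonneg _)).trans (hbig'.trans ?_)
      have h4 : (Finset.univ.filter (fun x : Fin M → Bool =>
          ∃ l, C.Just (fun j => f j (app π x)) C.out true l ∧
            (l.map (fun j => (W j).card)).sum ≤ k * (π.length + M))) ⊆
          (Finset.univ.filter (fun x : Fin M → Bool => lg (List.ofFn x) ∧
          ∃ l, C.Just (fun j => f j (app π x)) C.out true l ∧
            (l.map (fun j => (W' j ∩ Y').card)).sum ≤ 2 * k * M)) := by
        intro x hx
        obtain ⟨l, hl1, hl2⟩ := (Finset.mem_filter.1 hx).2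
        refine Finset.mem_filter.2 ⟨Finset.mem_univ _, ?_, l, hl1, ?_⟩
        · have h5 := hs (app π x) (Circuit.just_sound hl1)
          rw [ofFn_app, hL] at h5
          exact h5
        · have h6 : (l.map (fun j => (W' j ∩ Y').card)).sum ≤ (l.map (fun j => (W j).card)).sum := by
            apply List.sum_le_sum
            intro j _
            exact hWc j
          have h7 : π.length + M ≤ 2 * M := by omega
          calc (l.map (fun j => (W' j ∩ Y').card)).sum ≤ k * (π.length + M) := h6.trans hl2
            _ ≤ k * (2 * M) := Nat.mul_le_mul_left _ h7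
            _ = 2 * k * M := by ring
      exact_mod_cast Finset.card_le_card h4)
  have h6 : (2 : ℝ) ^ (e : ℝ) ≤ C.size :=
    (Real.rpow_le_rpow_of_exponent_le (by norm_num) heZ).trans hmain
  rw [Real.rpow_natCast] at h6
  exact_mod_cast h6

end Pool.Agent.PQ44
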